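import Mathlib
import Pool.Agent.MP_2b113a_an.H33.All

/-!
Every elementwise conservative action of a lattice of rational rank at least two has an equivalent
invariant probability measure.

`L` is a simple rational Lie algebra with basis `b` and with two independent commuting elements
that are diagonalisable over the rationals. `G` is a connected Lie group with Lie algebra the real
form of `L`, and `Λ` is a lattice of `G` that is arithmetic for the rational structure `L`.
-/

namespace Pool.Agent.Results.MP_2b113a_an.HigherRank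

open MeasureTheory Pool.Agent.MP_2b113a_an Pool.Agent.MP_2b113a_an.H33
open scoped Pointwise

theorem result (n : ℕ) (L : Type) [LieRing L] [LieAlgebra ℚ L] [LieAlgebra.IsSimple ℚ L]
    (b : Module.Basis (Fin n) ℚ L) (s₁ s₂ : L) (hind : LinearIndependent ℚ ![s₁, s₂])
    (hcomm : ⁅s₁, s₂⁆ = 0)
    (hs₁ : ⨆ c : ℚ, Module.End.eigenspace (LieAlgebra.ad ℚ L s₁) c = ⊤)
    (hs₂ : ⨆ c : ℚ, Module.End.eigenspace (LieAlgebra.ad ℚ L s₂) c = ⊤)
    (G : Type) [Group G] [TopologicalSpace G] [IsTopologicalGroup G] [ConnectedSpace G]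
    [T2Space G] [LocallyCompactSpace G] [SecondCountableTopology G] [MeasurableSpace G]
    [BorelSpace G] (Ad : G →* Aut b) (hAd : IsCoveringMap Ad)
    (Λ : Subgroup G) [DiscreteTopology Λ] (m : Measure G) [m.IsHaarMeasure] (D : Set G)
    (hD : IsFundamentalDomain Λ D m) (hfin : m D ≠ ⊤)
    (harith : (AutZ b).relIndex (Λ.map Ad) ≠ 0)
    (Γ : Type) [Group Γ] (φ : Λ →* Γ) (hφ : φ.range.FiniteIndex)
    (X : Type) [MeasurableSpace X] [MulAction Γ X] (μ : Measure X) [IsProbabilityMeasure μ]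
    (hmeas : ∀ γ : Γ, Measurable fun x : X => γ • x)
    (hns : ∀ (γ : Γ) (s : Set X), MeasurableSet s → μ s = 0 → μ ((fun x : X => γ • x) '' s) = 0)
    (hcons : ∀ (γ : Γ) (W : Set X), MeasurableSet W →
      (∀ k : ℤ, k ≠ 0 → μ ((fun x : X => γ ^ k • x) '' W ∩ W) = 0) → μ W = 0) :
    ∃ ν : Measure X, IsProbabilityMeasure ν ∧ ν ≪ μ ∧ μ ≪ ν ∧
      ∀ γ : Γ, ν.map (fun x : X => γ • x) = ν := by
  have hac : ∀ g : Γ, (μ.map fun x : X => g • x) ≪ μ := by
    intro g
    refine Measure.AbsolutelyContinuous.mk fun s hs h0 => ?_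
    rw [Measure.map_apply (hmeas g) hs]
    have := hns g⁻¹ s hs h0
    convert this using 2
    ext x
    constructor
    · intro hx
      exact ⟨g • x, hx, by simp⟩
    · rintro ⟨y, hy, rfl⟩
      simpa using hy
  let : MulAction Λ X := MulAction.compHom X φ
  have e : ∀ (d : Λ) (x : X), d • x = φ d • x := fun _ _ => rfl
  obtain ⟨ν, hν, h1, h2, h3⟩ := final n L b s₁ s₂ hind hcomm hs₁ hs₂ G Ad hAd Λ m D hD hfin harith
    X μ ⟨fun d => hmeas (φ d), fun d => hns (φ d), fun d W hW H =>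
      hcons (φ d) W hW fun k hk => by simpa only [e, map_zpow] using H k hk⟩
  refine H49.exists_invariant hmeas hac (((H49.bdd_finite hmeas hac
    (Set.finite_range fun q : Γ ⧸ φ.range => q.out)).mul hmeas
    (H49.bdd_of_invariant hmeas h1 h2)).mono fun g _ => ?_)
  obtain ⟨h, hh⟩ := QuotientGroup.mk_out_eq_mul φ.range g
  obtain ⟨d, hd⟩ := (h⁻¹).2
  refine ⟨_, ⟨(g : Γ ⧸ φ.range), rfl⟩, φ d, h3 d, ?_⟩
  simp [hh, hd]

end Pool.Agent.Results.MP_2b113a_an.HigherRank
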